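import Mathlib

/-!
# Real numbers all of whose convergents have denominators of the form `w s²`

Start from two fractions `p₀/w₀`, `p₁/w₁` with `p₁ w₀ - p₀ w₁ = 1`. The recursion
`s_{j+2} = s_j + m_j w_{j+1} s_{j+1}²` (`m_j ∈ {1, 2}`, the `w_j` alternate between `w₀` and `w₁`)
gives denominators `q_j = w_j s_j²` with `q_{j+2} = q_j + T_j q_{j+1}`.
-/

set_option autoImplicit false

namespace Pool.Agent.Y471.SQ3

open Filter Topology

/-- the data of the construction -/
structure Dat where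
  w0 : ℤ
  w1 : ℤ
  p0 : ℤ
  p1 : ℤ
  m : ℕ → ℤ
  hw0 : 1 ≤ w0
  hw1 : 1 ≤ w1
  hle : w0 ≤ w1
  hdet : p1 * w0 - p0 * w1 = 1
  hm : ∀ j, 1 ≤ m j ∧ m j ≤ 2

namespace Dat

variable (D : Dat)

/-- the alternating factors -/
def W (j : ℕ) : ℤ := if j % 2 = 0 then D.w0 else D.w1

/-- the square roots -/
def s : ℕ → ℤ
  | 0 => 1
  | 1 => 1
  | j + 2 => s j + D.m j * D.W (j + 1) * s (j + 1) ^ 2

/-- the partial quotients -/
def T (j : ℕ) : ℤ := D.W j * D.m j * (2 * D.s j + D.m j * D.W (j + 1) * D.s (j + 1) ^ 2)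

/-- the numerators -/
def p : ℕ → ℤ
  | 0 => D.p0
  | 1 => D.p1
  | j + 2 => p j + D.T j * p (j + 1)

/-- the denominators -/
def q (j : ℕ) : ℤ := D.W j * D.s j ^ 2

lemma s_succ2 (j : ℕ) : D.s (j + 2) = D.s j + D.m j * D.W (j + 1) * D.s (j + 1) ^ 2 := rfl

lemma p_succ2 (j : ℕ) : D.p (j + 2) = D.p j + D.T j * D.p (j + 1) := rfl

lemma W_succ2 (j : ℕ) : D.W (j + 2) = D.W j := by
  unfold W
  have : (j + 2) % 2 = j % 2 := by omega
  rw [this]

lemma W_pos (j : ℕ) : 1 ≤ D.W j := by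
  unfold W
  split_ifs
  · exact D.hw0
  · exact D.hw1

lemma W_le (j : ℕ) : D.W j ≤ D.w0 + D.w1 := by
  have h0 := D.hw0
  have h1 := D.hw1
  unfold W
  split_ifs <;> omega

lemma s_pos : ∀ j, 1 ≤ D.s j
  | 0 => le_rfl
  | 1 => le_rfl
  | j + 2 => by
    rw [s_succ2]
    have h1 := s_pos j
    have h2 := s_pos (j + 1)
    have h3 := D.W_pos (j + 1)
    have h4 := (D.hm j).1
    have : 0 ≤ D.m j * D.W (j + 1) * D.s (j + 1) ^ 2 := by positivity
    linarith

lemma q_pos (j : ℕ) : 1 ≤ D.q j := by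
  unfold q
  have h1 := D.s_pos j
  have h2 := D.W_pos j
  nlinarith [mul_pos (show (0:ℤ) < D.W j by omega) (show (0:ℤ) < D.s j ^ 2 by positivity)]

lemma T_pos (j : ℕ) : 1 ≤ D.T j := by
  unfold T
  have h1 := D.s_pos j
  have h2 := D.s_pos (j + 1)
  have h3 := D.W_pos (j + 1)
  have h4 := D.W_pos j
  have h5 := (D.hm j).1
  have : 0 < D.W j * D.m j * (2 * D.s j + D.m j * D.W (j + 1) * D.s (j + 1) ^ 2) := by positivity
  omega

lemma q_succ2 (j : ℕ) : D.q (j + 2) = D.q j + D.T j * D.q (j + 1) := by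
  unfold q T
  rw [W_succ2, s_succ2]
  ring

lemma det : ∀ j, D.p (j + 1) * D.q j - D.p j * D.q (j + 1) = (-1) ^ j
  | 0 => by
    have h := D.hdet
    simp only [p, q, s, W]
    norm_num
    linarith
  | j + 1 => by
    have ih := det j
    rw [show j + 1 + 1 = j + 2 from rfl, p_succ2, q_succ2, pow_succ]
    linear_combination -ih

lemma s_grow (j : ℕ) : D.s (j + 1) ^ 2 + 1 ≤ D.s (j + 2) := by
  rw [s_succ2]
  have h1 := D.s_pos j
  have h2 := D.s_pos (j + 1)
  have h3 := D.W_pos (j + 1)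
  have h5 := (D.hm j).1
  have h6 : 1 ≤ D.m j * D.W (j + 1) := by nlinarith
  have h7 : 0 ≤ D.s (j + 1) ^ 2 := by positivity
  nlinarith

lemma s_mono (j : ℕ) : D.s j ≤ D.s (j + 1) := by
  rcases j with _ | j
  · exact le_rfl
  · have h1 := D.s_grow j
    have h2 := D.s_pos (j + 1)
    show D.s (j + 1) ≤ D.s (j + 2)
    nlinarith

lemma s_lin : ∀ j : ℕ, (j : ℤ) ≤ D.s (j + 1)
  | 0 => by
    have := D.s_pos 1
    simp only [Nat.cast_zero]
    exact le_trans (by norm_num) this
  | j + 1 => by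
    have ih := s_lin j
    have h1 := D.s_grow j
    have h2 := D.s_pos (j + 1)
    push_cast
    show (j : ℤ) + 1 ≤ D.s (j + 2)
    nlinarith

lemma q_grow (j : ℕ) : D.q (j + 1) ≤ 9 * (D.w0 + D.w1) * D.q j ^ 2 := by
  rcases j with _ | j
  · have h1 := D.W_le 1
    have h2 := D.W_pos 0
    have h3 := D.W_pos 1
    have h4 : D.q 1 = D.W 1 := by simp [q, s]
    have h5 : D.q 0 = D.W 0 := by simp [q, s]
    rw [show 0 + 1 = 1 from rfl, h4, h5]
    have h6 : (1 : ℤ) ≤ D.W 0 ^ 2 := by nlinarith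
    nlinarith
  · show D.q (j + 2) ≤ _
    have h1 := D.s_pos j
    have h2 := D.s_pos (j + 1)
    have h3 := D.W_pos (j + 1)
    have h4 := D.W_pos j
    have h5 := D.hm j
    have hs : D.s (j + 2) ≤ 3 * D.W (j + 1) * D.s (j + 1) ^ 2 := by
      rw [s_succ2]
      have h6 := D.s_mono j
      have h7 : D.s (j + 1) ≤ D.W (j + 1) * D.s (j + 1) ^ 2 := by nlinarith [sq_nonneg (D.s (j + 1))]
      have h8 : D.m j * (D.W (j + 1) * D.s (j + 1) ^ 2) ≤ 2 * (D.W (j + 1) * D.s (j + 1) ^ 2) :=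
        mul_le_mul_of_nonneg_right h5.2 (by positivity)
      nlinarith
    have hs0 : 0 ≤ D.s (j + 2) := le_trans (by norm_num) (D.s_pos (j + 2))
    have hs2 : D.s (j + 2) ^ 2 ≤ (3 * D.W (j + 1) * D.s (j + 1) ^ 2) ^ 2 :=
      pow_le_pow_left₀ hs0 hs 2
    have hW := D.W_le j
    unfold q
    rw [W_succ2]
    calc D.W j * D.s (j + 2) ^ 2
        ≤ (D.w0 + D.w1) * (3 * D.W (j + 1) * D.s (j + 1) ^ 2) ^ 2 :=
          mul_le_mul hW hs2 (by positivity) (by have := D.hw0; have := D.hw1; positivity)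
      _ = 9 * (D.w0 + D.w1) * (D.W (j + 1) * D.s (j + 1) ^ 2) ^ 2 := by ring

lemma q_mono (j : ℕ) : D.q j ≤ D.q (j + 1) := by
  rcases j with _ | j
  · have h1 := D.hle
    simpa [q, s, W] using h1
  · show D.q (j + 1) ≤ D.q (j + 2)
    rw [q_succ2]
    have h1 := D.q_pos j
    have h2 := D.q_pos (j + 1)
    have h3 := D.T_pos j
    nlinarith

/-! ### The limit -/

lemma frac_step (j : ℕ) :
    (D.p (j + 2) : ℝ) / D.q (j + 2) - (D.p j : ℝ) / D.q j
      = (-1) ^ j * (D.T j / (D.q j * D.q (j + 2))) := by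
  have h0 : (D.q j : ℝ) ≠ 0 := by have := D.q_pos j; positivity
  have h2 : (D.q (j + 2) : ℝ) ≠ 0 := by have := D.q_pos (j + 2); positivity
  have hdet : (D.p (j + 1) : ℝ) * D.q j - D.p j * D.q (j + 1) = (-1) ^ j := by
    have := D.det j
    exact_mod_cast this
  have hp : (D.p (j + 2) : ℝ) = D.p j + D.T j * D.p (j + 1) := by rw [p_succ2]; push_cast; ring
  have hq : (D.q (j + 2) : ℝ) = D.q j + D.T j * D.q (j + 1) := by rw [q_succ2]; push_cast; ring
  rw [div_sub_div _ _ h2 h0, ← hdet, mul_div_assoc', div_eq_div_iff (by positivity) (by positivity)]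
  rw [hp, hq]
  ring

lemma frac_diff (j : ℕ) :
    (D.p (j + 1) : ℝ) / D.q (j + 1) - (D.p j : ℝ) / D.q j
      = (-1) ^ j / (D.q j * D.q (j + 1)) := by
  have h0 : (D.q j : ℝ) ≠ 0 := by have := D.q_pos j; positivity
  have h2 : (D.q (j + 1) : ℝ) ≠ 0 := by have := D.q_pos (j + 1); positivity
  have hdet : (D.p (j + 1) : ℝ) * D.q j - D.p j * D.q (j + 1) = (-1) ^ j := by
    have := D.det j
    exact_mod_cast this
  rw [div_sub_div _ _ h2 h0, ← hdet, div_eq_div_iff (by positivity) (by positivity)]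
  ring

/-- lower convergents -/
noncomputable def lo (i : ℕ) : ℝ := (D.p (2 * i) : ℝ) / D.q (2 * i)

/-- upper convergents -/
noncomputable def hi (i : ℕ) : ℝ := (D.p (2 * i + 1) : ℝ) / D.q (2 * i + 1)

lemma lo_lt (i : ℕ) : D.lo i < D.lo (i + 1) := by
  have h := D.frac_step (2 * i)
  rw [pow_mul] at h
  have h1 : (0 : ℝ) < D.T (2 * i) / (D.q (2 * i) * D.q (2 * i + 2)) := by
    have h1 := D.T_pos (2 * i)
    have h2 := D.q_pos (2 * i)
    have h3 := D.q_pos (2 * i + 2)
    positivity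
  norm_num at h
  unfold lo
  rw [show 2 * (i + 1) = 2 * i + 2 by ring]
  linarith

lemma hi_lt (i : ℕ) : D.hi (i + 1) < D.hi i := by
  have h := D.frac_step (2 * i + 1)
  rw [pow_succ, pow_mul] at h
  have h1 : (0 : ℝ) < D.T (2 * i + 1) / (D.q (2 * i + 1) * D.q (2 * i + 1 + 2)) := by
    have h1 := D.T_pos (2 * i + 1)
    have h2 := D.q_pos (2 * i + 1)
    have h3 := D.q_pos (2 * i + 1 + 2)
    positivity
  norm_num at h
  unfold hi
  rw [show 2 * (i + 1) + 1 = 2 * i + 1 + 2 by ring]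
  linarith

lemma lo_lt_hi (i : ℕ) : D.lo i < D.hi i := by
  have h := D.frac_diff (2 * i)
  rw [pow_mul] at h
  have h1 : (0 : ℝ) < 1 / (D.q (2 * i) * D.q (2 * i + 1)) := by
    have h2 := D.q_pos (2 * i)
    have h3 := D.q_pos (2 * i + 1)
    positivity
  norm_num at h h1
  unfold lo hi
  linarith

/-- the number -/
noncomputable def alpha : ℝ := ⨆ i, D.lo i

lemma alpha_mem (i : ℕ) : D.lo i ≤ D.alpha ∧ D.alpha ≤ D.hi i := by
  have hmono : Monotone D.lo := monotone_nat_of_le_succ (fun i => (D.lo_lt i).le)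
  have hanti : Antitone D.hi := antitone_nat_of_succ_le (fun i => (D.hi_lt i).le)
  have h := Monotone.ciSup_mem_iInter_Icc_of_antitone hmono hanti
    (fun i => (D.lo_lt_hi i).le)
  have := Set.mem_iInter.mp h i
  exact this

lemma alpha_mem' (i : ℕ) : D.lo i < D.alpha ∧ D.alpha < D.hi i :=
  ⟨lt_of_lt_of_le (D.lo_lt i) (D.alpha_mem (i + 1)).1,
    lt_of_le_of_lt (D.alpha_mem (i + 1)).2 (D.hi_lt i)⟩

/-- the distances `θ_j = |q_j α - p_j|` -/
noncomputable def th (j : ℕ) : ℝ := (-1) ^ j * (D.q j * D.alpha - D.p j)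

lemma th_pos (j : ℕ) : 0 < D.th j := by
  have hq : (0 : ℝ) < D.q j := by have := D.q_pos j; positivity
  rcases Nat.even_or_odd' j with ⟨i, hi | hi⟩
  · have h := (D.alpha_mem' i).1
    unfold lo at h
    rw [← hi] at h
    rw [div_lt_iff₀ hq] at h
    unfold th
    rw [hi, pow_mul, ← hi]
    norm_num
    linarith
  · have h := (D.alpha_mem' i).2
    unfold Dat.hi at h
    rw [← hi] at h
    rw [lt_div_iff₀ hq] at h
    unfold th
    rw [hi, pow_succ, pow_mul, ← hi]
    norm_num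
    linarith

lemma th_step (j : ℕ) : D.th j = D.T j * D.th (j + 1) + D.th (j + 2) := by
  unfold th
  rw [p_succ2, q_succ2]
  push_cast
  rw [pow_succ, pow_succ]
  ring

lemma th_lt (j : ℕ) : D.th (j + 1) < D.th j := by
  rw [D.th_step j]
  have h1 : (1 : ℝ) ≤ D.T j := by exact_mod_cast D.T_pos j
  have h2 := D.th_pos (j + 1)
  have h3 := D.th_pos (j + 2)
  nlinarith

lemma th_det (j : ℕ) : D.q (j + 1) * D.th j + D.q j * D.th (j + 1) = 1 := by
  have hdet : (D.p (j + 1) : ℝ) * D.q j - D.p j * D.q (j + 1) = (-1) ^ j := by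
    have := D.det j
    exact_mod_cast this
  unfold th
  have h : (D.q (j + 1) : ℝ) * ((-1) ^ j * (D.q j * D.alpha - D.p j)) +
      D.q j * ((-1) ^ (j + 1) * (D.q (j + 1) * D.alpha - D.p (j + 1)))
      = (-1) ^ j * ((D.p (j + 1) : ℝ) * D.q j - D.p j * D.q (j + 1)) := by
    rw [pow_succ]; ring
  rw [h, hdet, ← pow_add, ← two_mul, pow_mul]
  norm_num

lemma th_upper (j : ℕ) : D.q (j + 1) * D.th j < 1 := by
  have h := D.th_det j
  have h1 : (0 : ℝ) < D.q j := by have := D.q_pos j; positivity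
  have h2 := mul_pos h1 (D.th_pos (j + 1))
  linarith

lemma th_lower (j : ℕ) : 1 < (D.q (j + 1) + D.q j) * D.th j := by
  have h := D.th_det j
  have h1 : (0 : ℝ) < D.q j := by have := D.q_pos j; positivity
  have h2 := mul_lt_mul_of_pos_left (D.th_lt j) h1
  linarith

/-- best approximation -/
lemma best (j : ℕ) (a b : ℤ) (hb : 0 < b) (hlt : b < D.q (j + 1)) :
    D.th j ≤ |(b : ℝ) * D.alpha - a| := by
  have hdetZ := D.det j
  set e : ℤ := (-1) ^ j with he
  have he2 : e * e = 1 := by rw [he, ← pow_add, ← two_mul, pow_mul]; norm_num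
  set X : ℤ := e * (b * D.p (j + 1) - a * D.q (j + 1)) with hX
  set Y : ℤ := e * (a * D.q j - b * D.p j) with hY
  have hb' : b = X * D.q j + Y * D.q (j + 1) := by
    rw [hX, hY]
    linear_combination (-(e * b)) * hdetZ - b * he2
  have ha' : a = X * D.p j + Y * D.p (j + 1) := by
    rw [hX, hY]
    linear_combination (-(e * a)) * hdetZ - a * he2
  have hform : (b : ℝ) * D.alpha - a = (-1) ^ j * (X * D.th j - Y * D.th (j + 1)) := by
    have h1 : (b : ℝ) = X * D.q j + Y * D.q (j + 1) := by exact_mod_cast hb'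
    have h2 : (a : ℝ) = X * D.p j + Y * D.p (j + 1) := by exact_mod_cast ha'
    have h3 : ((-1 : ℝ) ^ j) * (-1) ^ j = 1 := by rw [← pow_add, ← two_mul, pow_mul]; norm_num
    rw [h1, h2]
    unfold th
    rw [pow_succ]
    linear_combination (-(X : ℝ) * (D.q j * D.alpha - D.p j)
      - Y * (D.q (j + 1) * D.alpha - D.p (j + 1))) * h3
  have habs : |(b : ℝ) * D.alpha - a| = |X * D.th j - Y * D.th (j + 1)| := by
    rw [hform, abs_mul, abs_pow]
    simp
  rw [habs]
  have hq0 := D.q_pos j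
  have hq1 := D.q_pos (j + 1)
  have ht0 := D.th_pos j
  have ht1 := D.th_pos (j + 1)
  rcases lt_trichotomy Y 0 with hYneg | hY0 | hYpos
  · have hX1 : 1 ≤ X := by
      by_contra hcon
      push Not at hcon
      have h1 : X * D.q j ≤ 0 := mul_nonpos_of_nonpos_of_nonneg (by omega) (by omega)
      have h2 : Y * D.q (j + 1) < 0 := mul_neg_of_neg_of_pos hYneg (by omega)
      omega
    have h1 : (1 : ℝ) ≤ X := by exact_mod_cast hX1
    have h2 : (Y : ℝ) < 0 := by exact_mod_cast hYneg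
    refine le_trans ?_ (le_abs_self _)
    nlinarith
  · have hX1 : 1 ≤ X := by
      by_contra hcon
      push Not at hcon
      have h1 : X * D.q j ≤ 0 := mul_nonpos_of_nonpos_of_nonneg (by omega) (by omega)
      rw [hY0] at hb'
      omega
    have h1 : (1 : ℝ) ≤ X := by exact_mod_cast hX1
    refine le_trans ?_ (le_abs_self _)
    rw [hY0]
    push_cast
    nlinarith
  · have hX1 : X ≤ -1 := by
      by_contra hcon
      push Not at hcon
      have h1 : 0 ≤ X * D.q j := mul_nonneg (by omega) (by omega)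
      have h2 : D.q (j + 1) ≤ Y * D.q (j + 1) := by nlinarith
      omega
    have h1 : (X : ℝ) ≤ -1 := by exact_mod_cast hX1
    have h2 : (0 : ℝ) < Y := by exact_mod_cast hYpos
    refine le_trans ?_ (neg_le_abs _)
    nlinarith

lemma q_big (b : ℤ) : ∃ j, b < D.q (j + 1) := by
  refine ⟨b.toNat + 1, ?_⟩
  have h1 := D.s_lin (b.toNat + 1)
  have h2 : b ≤ (b.toNat : ℤ) := Int.self_le_toNat b
  push_cast at h1
  have h3 := D.W_pos (b.toNat + 1 + 1)
  have h4 := D.s_pos (b.toNat + 1 + 1)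
  unfold q
  nlinarith

/-- a lower bound for all approximations -/
lemma approx (a b : ℤ) (hb : 1 ≤ b) :
    1 / (18 * ((D.w0 : ℝ) + D.w1)) / (b : ℝ) ^ 2 ≤ |(b : ℝ) * D.alpha - a| := by
  classical
  have hex := D.q_big b
  set j := Nat.find hex with hj
  have hj1 : b < D.q (j + 1) := Nat.find_spec hex
  have hbest := D.best j a b (by omega) hj1
  refine le_trans ?_ hbest
  have hw0 : (1 : ℝ) ≤ D.w0 := by exact_mod_cast D.hw0
  have hw1 : (1 : ℝ) ≤ D.w1 := by exact_mod_cast D.hw1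
  have hbR : (1 : ℝ) ≤ b := by exact_mod_cast hb
  have hqj : (1 : ℝ) ≤ D.q j := by exact_mod_cast D.q_pos j
  have hq : (D.q (j + 1) : ℝ) ≤ 9 * ((D.w0 : ℝ) + D.w1) * (b : ℝ) ^ 2 := by
    by_cases hj0 : j = 0
    · rw [hj0]
      have h1 : D.q (0 + 1) = D.w1 := by simp [q, s, W]
      rw [h1]
      have h2 : (1 : ℝ) ≤ (b : ℝ) ^ 2 := by nlinarith
      have h3 : 9 * ((D.w0 : ℝ) + D.w1) * 1 ≤ 9 * ((D.w0 : ℝ) + D.w1) * (b : ℝ) ^ 2 :=
        mul_le_mul_of_nonneg_left h2 (by positivity)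
      linarith
    · obtain ⟨i, hi⟩ := Nat.exists_eq_succ_of_ne_zero hj0
      have h1 : D.q j ≤ b := by
        have h2 := Nat.find_min hex (m := i) (by omega)
        rw [hi]
        push Not at h2
        exact h2
      have h2 : (D.q j : ℝ) ≤ b := by exact_mod_cast h1
      have h3 : (D.q (j + 1) : ℝ) ≤ 9 * ((D.w0 : ℝ) + D.w1) * (D.q j : ℝ) ^ 2 := by
        exact_mod_cast D.q_grow j
      refine h3.trans ?_
      have h4 : (D.q j : ℝ) ^ 2 ≤ (b : ℝ) ^ 2 := pow_le_pow_left₀ (by linarith) h2 2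
      exact mul_le_mul_of_nonneg_left h4 (by positivity)
  have hqle : (D.q j : ℝ) ≤ D.q (j + 1) := by exact_mod_cast D.q_mono j
  have hth := D.th_lower j
  have htp := D.th_pos j
  have hq1 : (0 : ℝ) < D.q (j + 1) := by linarith
  rw [div_div, div_le_iff₀ (by positivity)]
  have h5 : ((D.q (j + 1) : ℝ) + D.q j) * D.th j ≤
      (2 * (9 * ((D.w0 : ℝ) + D.w1) * (b : ℝ) ^ 2)) * D.th j :=
    mul_le_mul_of_nonneg_right (by linarith) htp.le
  nlinarith

lemma irr : Irrational D.alpha := by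
  rintro ⟨r, hr⟩
  have h := D.approx r.num r.den (by exact_mod_cast r.pos)
  rw [← hr] at h
  have h2 : ((r.den : ℤ) : ℝ) * (r : ℝ) - (r.num : ℝ) = 0 := by
    have : (r : ℝ) = (r.num : ℝ) / (r.den : ℝ) := by exact_mod_cast (Rat.num_div_den r).symm
    rw [this]
    have hd : (r.den : ℝ) ≠ 0 := by exact_mod_cast r.den_nz
    push_cast
    field_simp
    ring
  rw [h2] at h
  have hw0 : (1 : ℝ) ≤ D.w0 := by exact_mod_cast D.hw0
  have hw1 : (1 : ℝ) ≤ D.w1 := by exact_mod_cast D.hw1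
  have hd : (0 : ℝ) < ((r.den : ℤ) : ℝ) := by exact_mod_cast r.pos
  have : 0 < 1 / (18 * ((D.w0 : ℝ) + D.w1)) / (((r.den : ℤ) : ℝ)) ^ 2 := by positivity
  simp only [abs_zero] at h
  linarith

/-- the type is three -/
lemma type3 : ∃ C : ℝ, 0 < C ∧ ∀ a q : ℤ, 1 ≤ q →
    C * (q : ℝ) ^ (-(3 : ℝ)) ≤ |D.alpha - (a : ℝ) / (q : ℝ)| := by
  have hw0 : (1 : ℝ) ≤ D.w0 := by exact_mod_cast D.hw0
  have hw1 : (1 : ℝ) ≤ D.w1 := by exact_mod_cast D.hw1
  refine ⟨1 / (18 * ((D.w0 : ℝ) + D.w1)), by positivity, ?_⟩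
  intro a q hq
  have h := D.approx a q hq
  have hqR : (1 : ℝ) ≤ q := by exact_mod_cast hq
  have hqR0 : (0 : ℝ) < q := by linarith
  have h1 : |D.alpha - (a : ℝ) / q| = |(q : ℝ) * D.alpha - a| / q := by
    rw [eq_div_iff hqR0.ne']
    nth_rewrite 2 [← abs_of_pos hqR0]
    rw [← abs_mul]
    congr 1
    field_simp
  rw [h1, le_div_iff₀ hqR0]
  have h2 : (q : ℝ) ^ (-(3 : ℝ)) = 1 / (q : ℝ) ^ 3 := by
    rw [Real.rpow_neg hqR0.le, one_div]
    norm_cast
  rw [h2]
  refine le_trans (le_of_eq ?_) h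
  field_simp

/-- the number lies between the two starting fractions -/
lemma alpha_between : (D.p0 : ℝ) / D.w0 < D.alpha ∧ D.alpha < (D.p1 : ℝ) / D.w1 := by
  have h := D.alpha_mem' 0
  have h1 : D.lo 0 = (D.p0 : ℝ) / D.w0 := by simp [lo, p, q, s, W]
  have h2 : D.hi 0 = (D.p1 : ℝ) / D.w1 := by simp [hi, p, q, s, W]
  rw [h1, h2] at h
  exact h

end Dat

/-- different choices give different numbers -/
lemma alpha_ne (D D' : Dat) (h0 : D.w0 = D'.w0) (h1 : D.w1 = D'.w1) (h2 : D.p0 = D'.p0)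
    (h3 : D.p1 = D'.p1) (h : D.alpha = D'.alpha) : D.m = D'.m := by
  have hW : ∀ j, D.W j = D'.W j := by
    intro j
    unfold Dat.W
    rw [h0, h1]
  have key : ∀ j, (∀ i, i < j → D.m i = D'.m i) ∧ (∀ i, i ≤ j + 1 → D.s i = D'.s i ∧ D.p i = D'.p i) := by
    intro j
    induction j with
    | zero =>
      refine ⟨fun i hi => by omega, ?_⟩
      intro i hi
      interval_cases i
      · exact ⟨rfl, h2⟩
      · exact ⟨rfl, h3⟩
    | succ j ih =>
      obtain ⟨ihm, ihs⟩ := ih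
      have hq : ∀ i, i ≤ j + 1 → D.q i = D'.q i := by
        intro i hi
        unfold Dat.q
        rw [hW, (ihs i hi).1]
      have hth : D.th (j + 1) = D'.th (j + 1) := by
        unfold Dat.th
        rw [hq (j + 1) le_rfl, (ihs (j + 1) le_rfl).2, h]
      have hm : D.m j = D'.m j := by
        -- compare the next denominators
        have a1 := D.th_upper (j + 1)
        have a2 := D.th_lower (j + 1)
        have b1 := D'.th_upper (j + 1)
        have b2 := D'.th_lower (j + 1)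
        rw [← hth] at b1 b2
        have htp := D.th_pos (j + 1)
        have e1 : D.q (j + 2) < D'.q (j + 2) + D'.q (j + 1) := by
          have : (D.q (j + 2) : ℝ) < D'.q (j + 2) + D'.q (j + 1) :=
            lt_of_mul_lt_mul_right (a1.trans b2) htp.le
          exact_mod_cast this
        have e2 : D'.q (j + 2) < D.q (j + 2) + D.q (j + 1) := by
          have : (D'.q (j + 2) : ℝ) < D.q (j + 2) + D.q (j + 1) :=
            lt_of_mul_lt_mul_right (b1.trans a2) htp.le
          exact_mod_cast this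
        rw [D.q_succ2, D'.q_succ2, hq j (by omega), hq (j + 1) le_rfl] at e1 e2
        have hqp := D'.q_pos (j + 1)
        have hTT : D.T j = D'.T j := by
          have f1 : D.T j * D'.q (j + 1) < (D'.T j + 1) * D'.q (j + 1) := by linarith
          have f2 : D'.T j * D'.q (j + 1) < (D.T j + 1) * D'.q (j + 1) := by linarith
          have g1 := lt_of_mul_lt_mul_right f1 (by omega)
          have g2 := lt_of_mul_lt_mul_right f2 (by omega)
          omega
        unfold Dat.T at hTT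
        rw [hW j, hW (j + 1), (ihs j (by omega)).1, (ihs (j + 1) le_rfl).1] at hTT
        have hWj := D'.W_pos j
        have hWj1 := D'.W_pos (j + 1)
        have hsj := D'.s_pos j
        have hsj1 := D'.s_pos (j + 1)
        have c1 := D.hm j
        have c2 := D'.hm j
        have hX : 0 < D'.W (j + 1) * D'.s (j + 1) ^ 2 := by positivity
        by_contra hne
        rcases lt_or_gt_of_ne hne with hlt | hgt
        · have d1 : D.m j = 1 := by omega
          have d2 : D'.m j = 2 := by omega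
          rw [d1, d2] at hTT
          nlinarith [mul_pos (show 0 < D'.W j by omega) hX, mul_pos (show 0 < D'.W j by omega) (show 0 < D'.s j by omega)]
        · have d1 : D.m j = 2 := by omega
          have d2 : D'.m j = 1 := by omega
          rw [d1, d2] at hTT
          nlinarith [mul_pos (show 0 < D'.W j by omega) hX, mul_pos (show 0 < D'.W j by omega) (show 0 < D'.s j by omega)]
      refine ⟨?_, ?_⟩
      · intro i hi
        rcases Nat.lt_succ_iff_lt_or_eq.mp hi with h | h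
        · exact ihm i h
        · rw [h]; exact hm
      · intro i hi
        rcases Nat.le_succ_iff.mp hi with h | h
        · exact ihs i h
        · rw [h]
          show D.s (j + 2) = D'.s (j + 2) ∧ D.p (j + 2) = D'.p (j + 2)
          have hs : D.s (j + 2) = D'.s (j + 2) := by
            rw [D.s_succ2, D'.s_succ2, hm, hW (j + 1), (ihs j (by omega)).1, (ihs (j + 1) le_rfl).1]
          have hT : D.T j = D'.T j := by
            unfold Dat.T
            rw [hW j, hW (j + 1), (ihs j (by omega)).1, (ihs (j + 1) le_rfl).1, hm]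
          refine ⟨hs, ?_⟩
          rw [D.p_succ2, D'.p_succ2, hT, (ihs j (by omega)).2, (ihs (j + 1) le_rfl).2]
  funext j
  exact (key (j + 1)).1 j (by omega)

end Pool.Agent.Y471.SQ3
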