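import Pool.Agent.Y471.SQ3.Arith
import Pool.Agent.Results.MP_ba281e_nt.NoPoissonSubseq

/-!
# Clusters of `{n² α}` and lower bounds for the correlations
-/

set_option autoImplicit false

namespace Pool.Agent.Y471.SQ3

open Filter Topology
open Pool.Agent.Results.MP_ba281e_nt.NoPoissonSubseq (x corr IsOfType PoissonianAlong)

lemma x_mem (α : ℝ) (n : ℕ) : 0 ≤ x α n ∧ x α n < 1 := ⟨Int.fract_nonneg _, Int.fract_lt_one _⟩

lemma summable_inner (d N : ℕ) (hN : 1 ≤ N) (α : ℝ) (f : (Fin d → ℝ) → ℝ)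
    (hc : HasCompactSupport f) (n : Fin (d + 1) → ℕ) :
    Summable fun m : Fin d → ℤ =>
      f fun i => (N : ℝ) * (x α (n i.castSucc) - x α (n i.succ) + (m i : ℝ)) := by
  obtain ⟨R, hR⟩ := hc.isCompact.isBounded.subset_closedBall (0 : Fin d → ℝ)
  apply summable_of_hasFiniteSupport
  obtain ⟨K, hK⟩ := exists_nat_gt (|R| + 1)
  refine (Set.finite_Icc (fun _ : Fin d => -(K : ℤ)) (fun _ => (K : ℤ))).subset ?_
  intro m hm
  rw [Function.mem_support] at hm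
  have h0 := hR (subset_tsupport f (Function.mem_support.mpr hm))
  rw [mem_closedBall_zero_iff] at h0
  have hNR : (1 : ℝ) ≤ N := by exact_mod_cast hN
  have h2 : ∀ i, |(m i : ℝ)| < K := by
    intro i
    have h3 := (norm_le_pi_norm (fun i : Fin d =>
      (N : ℝ) * (x α (n i.castSucc) - x α (n i.succ) + (m i : ℝ))) i).trans h0
    simp only [Real.norm_eq_abs, abs_mul, Nat.abs_cast] at h3
    have h4 : |x α (n i.castSucc) - x α (n i.succ) + (m i : ℝ)| ≤ |R| := by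
      have h5 := abs_nonneg (x α (n i.castSucc) - x α (n i.succ) + (m i : ℝ))
      have h6 := le_abs_self R
      nlinarith
    have h5 := x_mem α (n i.castSucc)
    have h6 := x_mem α (n i.succ)
    rw [abs_le] at h4
    rw [abs_lt]
    constructor <;> linarith [h4.1, h4.2, h5.1, h5.2, h6.1, h6.2]
  constructor
  · intro i
    have := h2 i
    rw [abs_lt] at this
    have h : -(K : ℝ) < m i := this.1
    have : -(K : ℤ) < m i := by exact_mod_cast h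
    exact this.le
  · intro i
    have := h2 i
    rw [abs_lt] at this
    have h := this.2
    have : m i < (K : ℤ) := by exact_mod_cast h
    exact this.le

lemma corr_lower (d N : ℕ) (hN : 1 ≤ N) (α δ c : ℝ) (f : (Fin d → ℝ) → ℝ)
    (hf0 : ∀ y, 0 ≤ f y) (hc : HasCompactSupport f)
    (hfc : ∀ y : Fin d → ℝ, (∀ i, |y i| ≤ δ) → c ≤ f y)
    (T : Finset (Fin (d + 1) → ℕ))
    (hT : T ⊆ (Fintype.piFinset fun _ : Fin (d + 1) => Finset.Icc 1 N).filter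
        (fun n => Function.Injective n))
    (hcl : ∀ n ∈ T, ∀ i j, |x α (n i) - x α (n j)| ≤ δ / N) :
    c * (T.card : ℝ) / N ≤ corr d N α f := by
  unfold corr
  have hNR : (0 : ℝ) < N := by exact_mod_cast hN
  rw [div_eq_mul_one_div, mul_comm]
  refine mul_le_mul_of_nonneg_left ?_ (by positivity)
  refine le_trans ?_ (Finset.sum_le_sum_of_subset_of_nonneg hT
    (fun n _ _ => tsum_nonneg (fun m => hf0 _)))
  rw [mul_comm, ← nsmul_eq_mul, ← Finset.sum_const]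
  refine Finset.sum_le_sum (fun n hn => ?_)
  have h1 := (summable_inner d N hN α f hc n).le_tsum (0 : Fin d → ℤ) (fun m _ => hf0 _)
  refine le_trans ?_ h1
  apply hfc
  intro i
  simp only [Pi.zero_apply, Int.cast_zero, add_zero, abs_mul, Nat.abs_cast]
  have h2 := hcl n hn i.castSucc i.succ
  have h3 := mul_le_mul_of_nonneg_left h2 hNR.le
  rw [mul_div_cancel₀ _ hNR.ne'] at h3
  exact h3

/-- the step of the cluster -/
def v (D : Dat) (j : ℕ) : ℕ := (D.W j * D.s j).toNat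

lemma v_cast (D : Dat) (j : ℕ) : (v D j : ℝ) = (D.W j : ℝ) * D.s j := by
  have h1 := D.W_pos j
  have h2 := D.s_pos j
  have h3 : 0 ≤ D.W j * D.s j := by positivity
  have h4 : ((v D j : ℕ) : ℤ) = D.W j * D.s j := Int.toNat_of_nonneg h3
  exact_mod_cast h4

lemma v_pos (D : Dat) (j : ℕ) : 0 < v D j := by
  have h1 := D.W_pos j
  have h2 := D.s_pos j
  have h3 : 0 < D.W j * D.s j := by positivity
  unfold v
  omega

lemma x_form (D : Dat) (j u : ℕ) (hu : 1 ≤ u) (ht : (u : ℝ) ^ 2 * D.W j * D.th j < 1) :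
    x D.alpha (v D j * u) =
      if j % 2 = 0 then (u : ℝ) ^ 2 * D.W j * D.th j else 1 - (u : ℝ) ^ 2 * D.W j * D.th j := by
  have hth := D.th_pos j
  have hW : (1 : ℝ) ≤ D.W j := by exact_mod_cast D.W_pos j
  have huR : (1 : ℝ) ≤ u := by exact_mod_cast hu
  have ht0 : 0 < (u : ℝ) ^ 2 * D.W j * D.th j := by positivity
  have hee : ((-1 : ℝ) ^ j) * (-1) ^ j = 1 := by rw [← pow_add, ← two_mul, pow_mul]; norm_num
  have h1 : (((v D j * u : ℕ) : ℝ)) ^ 2 * D.alpha =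
      (-1) ^ j * ((u : ℝ) ^ 2 * D.W j * D.th j) + ((u ^ 2 * D.W j * D.p j : ℤ) : ℝ) := by
    push_cast
    rw [v_cast]
    have hq : (D.q j : ℝ) = D.W j * (D.s j : ℝ) ^ 2 := by unfold Dat.q; push_cast; ring
    unfold Dat.th
    rw [hq]
    linear_combination (-(u : ℝ) ^ 2 * D.W j * (D.W j * (D.s j : ℝ) ^ 2 * D.alpha - D.p j)) * hee
  unfold x
  rw [h1, Int.fract_add_intCast]
  split_ifs with hj
  · have he : ((-1 : ℝ) ^ j) = 1 := Even.neg_one_pow (Nat.even_iff.mpr hj)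
    rw [he, one_mul]
    exact Int.fract_eq_self.mpr ⟨ht0.le, ht⟩
  · have he : ((-1 : ℝ) ^ j) = -1 := Odd.neg_one_pow (Nat.odd_iff.mpr (by omega))
    rw [he, Int.fract_eq_iff]
    refine ⟨by linarith, by linarith, -1, ?_⟩
    push_cast
    ring

lemma x_close (D : Dat) (j u u' U : ℕ) (hu : 1 ≤ u) (hu' : 1 ≤ u') (huU : u ≤ U) (huU' : u' ≤ U)
    (ε : ℝ) (hε : ε < 1) (hU : (U : ℝ) ^ 2 * D.W j * D.th j ≤ ε) :
    |x D.alpha (v D j * u) - x D.alpha (v D j * u')| ≤ ε := by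
  have hth := D.th_pos j
  have hW : (1 : ℝ) ≤ D.W j := by exact_mod_cast D.W_pos j
  have hbd : ∀ w : ℕ, 1 ≤ w → w ≤ U → 0 < (w : ℝ) ^ 2 * D.W j * D.th j ∧
      (w : ℝ) ^ 2 * D.W j * D.th j ≤ ε := by
    intro w hw hwU
    have hwR : (1 : ℝ) ≤ w := by exact_mod_cast hw
    have hwU' : (w : ℝ) ≤ U := by exact_mod_cast hwU
    refine ⟨by positivity, le_trans ?_ hU⟩
    have h1 : (w : ℝ) ^ 2 ≤ (U : ℝ) ^ 2 := pow_le_pow_left₀ (by linarith) hwU' 2
    have h2 : 0 ≤ (D.W j : ℝ) * D.th j := by positivity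
    have h3 := mul_le_mul_of_nonneg_right h1 h2
    linarith
  have h1 := hbd u hu huU
  have h2 := hbd u' hu' huU'
  rw [x_form D j u hu (by linarith), x_form D j u' hu' (by linarith)]
  split_ifs <;> rw [abs_le] <;> constructor <;> linarith

/-- lower bound for the correlation at `N` from one convergent -/
lemma corr_lower' (D : Dat) (d j L N : ℕ) (hN : 2 ≤ N) (δ c : ℝ) (hδ1 : δ ≤ 1)
    (f : (Fin d → ℝ) → ℝ) (hf0 : ∀ y, 0 ≤ f y) (hc : HasCompactSupport f)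
    (hfc : ∀ y : Fin d → ℝ, (∀ i, |y i| ≤ δ) → c ≤ f y)
    (h1 : v D j * ((d + 1) * L) ≤ N)
    (h2 : (((d + 1) * L : ℕ) : ℝ) ^ 2 * D.W j * N ≤ δ * D.q (j + 1)) :
    c * ((L : ℝ) ^ (d + 1)) / N ≤ corr d N D.alpha f := by
  classical
  have hv0 : 0 < v D j := v_pos D j
  let T : Finset (Fin (d + 1) → ℕ) := Fintype.piFinset fun i : Fin (d + 1) =>
    (Finset.Icc 1 L).image (fun w => v D j * ((i : ℕ) * L + w))
  have hcard : T.card = L ^ (d + 1) := by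
    rw [Fintype.card_piFinset]
    have : ∀ i : Fin (d + 1),
        ((Finset.Icc 1 L).image (fun w => v D j * ((i : ℕ) * L + w))).card = L := by
      intro i
      rw [Finset.card_image_of_injective, Nat.card_Icc]
      · omega
      · intro a b hab
        have := Nat.eq_of_mul_eq_mul_left hv0 hab
        omega
    rw [Finset.prod_congr rfl (fun i _ => this i)]
    simp
  have hmem : ∀ n ∈ T, ∀ i : Fin (d + 1), ∃ w : ℕ, 1 ≤ w ∧ w ≤ L ∧
      n i = v D j * ((i : ℕ) * L + w) := by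
    intro n hn i
    have := Fintype.mem_piFinset.mp hn i
    rw [Finset.mem_image] at this
    obtain ⟨w, hw, hw2⟩ := this
    rw [Finset.mem_Icc] at hw
    exact ⟨w, hw.1, hw.2, hw2.symm⟩
  have hbd : ∀ (i : Fin (d + 1)) (w : ℕ), w ≤ L → (i : ℕ) * L + w ≤ (d + 1) * L := by
    intro i w hw
    have hi : (i : ℕ) + 1 ≤ d + 1 := i.isLt
    calc (i : ℕ) * L + w ≤ (i : ℕ) * L + L := by omega
      _ = ((i : ℕ) + 1) * L := by ring
      _ ≤ (d + 1) * L := Nat.mul_le_mul_right _ hi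
  have hT : T ⊆ (Fintype.piFinset fun _ : Fin (d + 1) => Finset.Icc 1 N).filter
        (fun n => Function.Injective n) := by
    intro n hn
    rw [Finset.mem_filter, Fintype.mem_piFinset]
    constructor
    · intro i
      obtain ⟨w, hw1, hw2, hw3⟩ := hmem n hn i
      rw [Finset.mem_Icc, hw3]
      constructor
      · exact Nat.mul_pos hv0 (by omega)
      · exact (Nat.mul_le_mul_left _ (hbd i w hw2)).trans h1
    · intro i i' hii
      obtain ⟨w, hw1, hw2, hw3⟩ := hmem n hn i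
      obtain ⟨w', hw1', hw2', hw3'⟩ := hmem n hn i'
      rw [hw3, hw3'] at hii
      have h4 := Nat.eq_of_mul_eq_mul_left hv0 hii
      by_contra hne
      have hne' : (i : ℕ) ≠ (i' : ℕ) := fun h => hne (Fin.ext h)
      rcases Nat.lt_or_gt_of_ne hne' with hlt | hlt
      · have : ((i : ℕ) + 1) * L ≤ (i' : ℕ) * L := Nat.mul_le_mul_right _ hlt
        rw [Nat.add_mul, one_mul] at this
        omega
      · have : ((i' : ℕ) + 1) * L ≤ (i : ℕ) * L := Nat.mul_le_mul_right _ hlt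
        rw [Nat.add_mul, one_mul] at this
        omega
  have hNR : (2 : ℝ) ≤ N := by exact_mod_cast hN
  have hε : δ / N < 1 := by
    rw [div_lt_one (by linarith)]
    linarith
  have hU : (((d + 1) * L : ℕ) : ℝ) ^ 2 * D.W j * D.th j ≤ δ / N := by
    have h3 := D.th_upper j
    have hth := D.th_pos j
    have hq : (0 : ℝ) < D.q (j + 1) := by have := D.q_pos (j + 1); positivity
    rw [le_div_iff₀ (by linarith)]
    by_cases hδ : 0 ≤ δ
    · have h4 := mul_le_mul_of_nonneg_right h2 hth.le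
      have h5 : δ * (D.q (j + 1) * D.th j) ≤ δ * 1 := mul_le_mul_of_nonneg_left h3.le hδ
      linarith
    · push Not at hδ
      exfalso
      have h6 : δ * D.q (j + 1) < 0 := mul_neg_of_neg_of_pos hδ hq
      have hW : (1 : ℝ) ≤ D.W j := by exact_mod_cast D.W_pos j
      have h7 : 0 ≤ (((d + 1) * L : ℕ) : ℝ) ^ 2 * D.W j * N := by positivity
      linarith
  have hcl : ∀ n ∈ T, ∀ i i', |x D.alpha (n i) - x D.alpha (n i')| ≤ δ / N := by
    intro n hn i i'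
    obtain ⟨w, hw1, hw2, hw3⟩ := hmem n hn i
    obtain ⟨w', hw1', hw2', hw3'⟩ := hmem n hn i'
    rw [hw3, hw3']
    exact x_close D j _ _ ((d + 1) * L) (by omega) (by omega) (hbd i w hw2) (hbd i' w' hw2')
      (δ / N) hε hU
  have h3 := corr_lower d N (by omega) D.alpha δ c f hf0 hc hfc T hT hcl
  rw [hcard] at h3
  push_cast at h3
  exact h3

/-- choice of the convergent -/
lemma choice (D : Dat) (N : ℕ) (hN : 1 ≤ N) :
    ∃ j, (D.s j : ℝ) ^ 4 ≤ (N : ℝ) ^ 3 ∧ (N : ℝ) ^ 3 < (D.s (j + 1) : ℝ) ^ 4 := by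
  classical
  have hex : ∃ j, ((N : ℤ)) ^ 3 < D.s (j + 1) ^ 4 := by
    refine ⟨N ^ 3 + 1, ?_⟩
    have h1 := D.s_lin (N ^ 3 + 1)
    push_cast at h1
    have h2 := D.s_pos (N ^ 3 + 1 + 1)
    have h3 : D.s (N ^ 3 + 1 + 1) ≤ D.s (N ^ 3 + 1 + 1) ^ 4 := by
      have := pow_le_pow_right₀ h2 (show 1 ≤ 4 by norm_num)
      simpa using this
    omega
  refine ⟨Nat.find hex, ?_, ?_⟩
  · rcases hj : Nat.find hex with _ | i
    · have h0 : D.s 0 = 1 := rfl
      rw [h0]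
      have : (1 : ℝ) ≤ N := by exact_mod_cast hN
      have := one_le_pow₀ this (n := 3)
      simpa using this
    · have := Nat.find_min hex (m := i) (by omega)
      push Not at this
      exact_mod_cast this
  · exact_mod_cast Nat.find_spec hex

theorem main_lower (D : Dat) (d : ℕ) (f : (Fin d → ℝ) → ℝ) (hf0 : ∀ y, 0 ≤ f y)
    (hc : HasCompactSupport f) (δ c : ℝ) (hδ0 : 0 < δ) (hδ1 : δ ≤ 1)
    (hfc : ∀ y : Fin d → ℝ, (∀ i, |y i| ≤ δ) → c ≤ f y) (N : ℕ) (hN : 2 ≤ N) (L : ℕ)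
    (hL : (((D.w0 : ℝ) + D.w1) * (((d : ℝ) + 1) * L)) ^ 4 ≤ δ ^ 2 * N) :
    c * ((L : ℝ) ^ (d + 1)) / N ≤ corr d N D.alpha f := by
  obtain ⟨j, hj1, hj2⟩ := choice D N (by omega)
  have hNR : (2 : ℝ) ≤ N := by exact_mod_cast hN
  have hw0 : (1 : ℝ) ≤ D.w0 := by exact_mod_cast D.hw0
  have hw1 : (1 : ℝ) ≤ D.w1 := by exact_mod_cast D.hw1
  have hW1 : (1 : ℝ) ≤ D.W j := by exact_mod_cast D.W_pos j
  have hW2 : (D.W j : ℝ) ≤ (D.w0 : ℝ) + D.w1 := by exact_mod_cast D.W_le j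
  have hs1 : (1 : ℝ) ≤ D.s j := by exact_mod_cast D.s_pos j
  have hs2 : (1 : ℝ) ≤ D.s (j + 1) := by exact_mod_cast D.s_pos (j + 1)
  set w : ℝ := (D.w0 : ℝ) + D.w1 with hw
  set M : ℝ := ((d : ℝ) + 1) * L with hM
  have hM0 : 0 ≤ M := by positivity
  have hδ2 : δ ^ 2 ≤ 1 := pow_le_one₀ hδ0.le hδ1
  have hcast : ((((d + 1) * L : ℕ)) : ℝ) = M := by rw [hM]; push_cast; ring
  refine corr_lower' D d j L N hN δ c hδ1 f hf0 hc hfc ?_ ?_
  · have h1 : ((v D j * ((d + 1) * L) : ℕ) : ℝ) ≤ (N : ℝ) := by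
      have h2 : ((v D j * ((d + 1) * L) : ℕ) : ℝ) = D.W j * D.s j * M := by
        rw [Nat.cast_mul, v_cast, hcast]
      rw [h2]
      rw [← pow_le_pow_iff_left₀ (by positivity) (by positivity) (show 4 ≠ 0 by norm_num)]
      have h3 : (D.W j : ℝ) ^ 4 ≤ w ^ 4 := pow_le_pow_left₀ (by linarith) hW2 4
      calc (D.W j * D.s j * M) ^ 4 = (D.W j : ℝ) ^ 4 * M ^ 4 * (D.s j : ℝ) ^ 4 := by ring
        _ ≤ w ^ 4 * M ^ 4 * (N : ℝ) ^ 3 := by gcongr
        _ = (w * M) ^ 4 * (N : ℝ) ^ 3 := by ring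
        _ ≤ (δ ^ 2 * N) * (N : ℝ) ^ 3 := mul_le_mul_of_nonneg_right hL (by positivity)
        _ ≤ (1 * N) * (N : ℝ) ^ 3 := by gcongr
        _ = (N : ℝ) ^ 4 := by ring
    exact_mod_cast h1
  · rw [hcast]
    have hq : (D.s (j + 1) : ℝ) ^ 2 ≤ D.q (j + 1) := by
      have hW3 : (1 : ℝ) ≤ D.W (j + 1) := by exact_mod_cast D.W_pos (j + 1)
      unfold Dat.q
      push_cast
      nlinarith [sq_nonneg (D.s (j + 1) : ℝ)]
    have hlow : M ^ 2 * D.W j * N ≤ δ * (D.s (j + 1) : ℝ) ^ 2 := by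
      rw [← pow_le_pow_iff_left₀ (by positivity) (by positivity) (show 2 ≠ 0 by norm_num)]
      have hw2 : (D.W j : ℝ) ^ 2 ≤ w ^ 4 := by
        have h3 : (D.W j : ℝ) ^ 2 ≤ w ^ 2 := pow_le_pow_left₀ (by linarith) hW2 2
        have h4 : w ^ 2 ≤ w ^ 4 := pow_le_pow_right₀ (by linarith) (by norm_num)
        linarith
      calc (M ^ 2 * D.W j * N) ^ 2 = M ^ 4 * (D.W j : ℝ) ^ 2 * (N : ℝ) ^ 2 := by ring
        _ ≤ M ^ 4 * w ^ 4 * (N : ℝ) ^ 2 := by gcongr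
        _ = (w * M) ^ 4 * (N : ℝ) ^ 2 := by ring
        _ ≤ (δ ^ 2 * N) * (N : ℝ) ^ 2 := mul_le_mul_of_nonneg_right hL (by positivity)
        _ = δ ^ 2 * (N : ℝ) ^ 3 := by ring
        _ ≤ δ ^ 2 * (D.s (j + 1) : ℝ) ^ 4 := by gcongr
        _ = (δ * (D.s (j + 1) : ℝ) ^ 2) ^ 2 := by ring
    exact hlow.trans (mul_le_mul_of_nonneg_left hq hδ0.le)

/-- the asymptotic form -/
theorem asym (D : Dat) (d : ℕ) (f : (Fin d → ℝ) → ℝ) (hf0 : ∀ y, 0 ≤ f y)
    (hc : HasCompactSupport f) (δ c κ : ℝ) (hδ0 : 0 < δ) (hδ1 : δ ≤ 1) (hc0 : 0 ≤ c)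
    (hfc : ∀ y : Fin d → ℝ, (∀ i, |y i| ≤ δ) → c ≤ f y) (hκ0 : 0 < κ)
    (hκ : (((D.w0 : ℝ) + D.w1) * (((d : ℝ) + 1) * κ)) ^ 4 ≤ δ ^ 2) :
    ∀ᶠ N : ℕ in atTop,
      c * (κ / 2) ^ (d + 1) * (N : ℝ) ^ (((d : ℝ) + 1) / 4 - 1) ≤ corr d N D.alpha f := by
  have hev : ∀ᶠ N : ℕ in atTop, 1 ≤ κ * (N : ℝ) ^ ((1 : ℝ) / 4) := by
    have h1 : Tendsto (fun N : ℕ => κ * (N : ℝ) ^ ((1 : ℝ) / 4)) atTop atTop :=
      ((tendsto_rpow_atTop (by norm_num)).comp tendsto_natCast_atTop_atTop).const_mul_atTop hκ0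
    exact h1.eventually_ge_atTop 1
  filter_upwards [hev, eventually_ge_atTop 2] with N hN1 hN2
  have hNR : (2 : ℝ) ≤ N := by exact_mod_cast hN2
  have hN0 : (0 : ℝ) < N := by linarith
  set y : ℝ := (N : ℝ) ^ ((1 : ℝ) / 4) with hy
  have hy0 : 0 < y := by positivity
  have hy4 : y ^ 4 = N := by
    rw [hy, ← Real.rpow_natCast, ← Real.rpow_mul hN0.le]
    norm_num
  set L : ℕ := ⌊κ * y⌋₊ with hL
  have hL1 : (L : ℝ) ≤ κ * y := Nat.floor_le (by positivity)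
  have hL2 : κ * y / 2 ≤ L := by
    have h1 : κ * y < L + 1 := Nat.lt_floor_add_one _
    have h2 : 1 ≤ L := Nat.one_le_floor_iff _ |>.mpr hN1
    have h3 : (1 : ℝ) ≤ L := by exact_mod_cast h2
    linarith
  have hw0 : (1 : ℝ) ≤ D.w0 := by exact_mod_cast D.hw0
  have hw1 : (1 : ℝ) ≤ D.w1 := by exact_mod_cast D.hw1
  have hmain := main_lower D d f hf0 hc δ c hδ0 hδ1 hfc N hN2 L (by
    calc (((D.w0 : ℝ) + D.w1) * (((d : ℝ) + 1) * L)) ^ 4
        ≤ (((D.w0 : ℝ) + D.w1) * (((d : ℝ) + 1) * (κ * y))) ^ 4 := by gcongr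
      _ = (((D.w0 : ℝ) + D.w1) * (((d : ℝ) + 1) * κ)) ^ 4 * y ^ 4 := by ring
      _ ≤ δ ^ 2 * y ^ 4 := mul_le_mul_of_nonneg_right hκ (by positivity)
      _ = δ ^ 2 * N := by rw [hy4])
  refine le_trans ?_ hmain
  have hpow : (N : ℝ) ^ (((d : ℝ) + 1) / 4 - 1) = y ^ (d + 1) / N := by
    rw [Real.rpow_sub hN0, Real.rpow_one]
    congr 1
    rw [hy, ← Real.rpow_natCast, ← Real.rpow_mul hN0.le]
    congr 1
    push_cast
    ring
  rw [hpow]
  have h1 : (κ * y / 2) ^ (d + 1) ≤ (L : ℝ) ^ (d + 1) := pow_le_pow_left₀ (by positivity) hL2 _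
  have h2 : c * (κ / 2) ^ (d + 1) * (y ^ (d + 1) / N) = c * (κ * y / 2) ^ (d + 1) / N := by
    rw [show κ * y / 2 = κ / 2 * y by ring, mul_pow]
    ring
  rw [h2]
  gcongr

end Pool.Agent.Y471.SQ3
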